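import Pool.Agent.V5helper64.HN.Fin
import Pool.Agent.Results.MP_0e6b5f_nt.FewExceptionalClasses

/-!
# The maps conjugate to a given Hénon map have a bounded number of periodic points of bounded degree
-/

set_option autoImplicit false

namespace Pool.Agent.V5helper64.HN

open Pool.Agent.Results.MP_0e6b5f_nt.FewExceptionalClasses (Qbar HenonMap Conjugate)

variable {d : ℕ}

/-- the map with given coefficients -/
noncomputable def hact (p : (Fin (d + 1) → Qbar) × Qbar) (P : Qbar × Qbar) : Qbar × Qbar :=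
  (P.2, ∑ i, p.1 i * P.2 ^ (i : ℕ) - p.2 * P.1)

/-- the coefficients -/
noncomputable def data (f : HenonMap d) : (Fin (d + 1) → Qbar) × Qbar := (fun i => (f.a i : Qbar), (f.δ : Qbar))

/-- conjugate coefficients -/
def Rel (p q : (Fin (d + 1) → Qbar) × Qbar) : Prop :=
  ∃ α β : Qbar, α ≠ 0 ∧ ∀ x y : Qbar, hact q (α * x + β, α * y + β) =
    (α * (hact p (x, y)).1 + β, α * (hact p (x, y)).2 + β)

theorem Rel.refl (p : (Fin (d + 1) → Qbar) × Qbar) : Rel p p :=
  ⟨1, 0, one_ne_zero, fun x y => by simp⟩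

theorem Rel.symm {p q : (Fin (d + 1) → Qbar) × Qbar} (h : Rel p q) : Rel q p := by
  obtain ⟨α, β, hα, h⟩ := h
  refine ⟨α⁻¹, -(β / α), inv_ne_zero hα, fun x y => ?_⟩
  have h1 := h (α⁻¹ * x + -(β / α)) (α⁻¹ * y + -(β / α))
  have e1 : ∀ x : Qbar, α * (α⁻¹ * x + -(β / α)) + β = x := by
    intro x
    field_simp
    ring
  rw [e1, e1] at h1
  rw [h1]
  apply Prod.ext
  · show _ = α⁻¹ * (α * _ + β) + -(β / α)
    field_simp
    ring
  · show _ = α⁻¹ * (α * _ + β) + -(β / α)
    field_simp
    ring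

theorem Rel.trans {p q r : (Fin (d + 1) → Qbar) × Qbar} (h : Rel p q) (h' : Rel q r) : Rel p r := by
  obtain ⟨α, β, hα, h⟩ := h
  obtain ⟨α', β', hα', h'⟩ := h'
  refine ⟨α' * α, α' * β + β', mul_ne_zero hα' hα, fun x y => ?_⟩
  have e1 : ∀ x : Qbar, α' * α * x + (α' * β + β') = α' * (α * x + β) + β' := fun x => by ring
  rw [e1, e1, h', h]
  apply Prod.ext
  · show α' * (α * _ + β) + β' = _
    ring
  · show α' * (α * _ + β) + β' = _
    ring

theorem coeff_rel (hd : 2 ≤ d) {p q : (Fin (d + 1) → Qbar) × Qbar} {α β : Qbar} (hα : α ≠ 0)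
    (h : ∀ x y : Qbar, hact q (α * x + β, α * y + β) =
      (α * (hact p (x, y)).1 + β, α * (hact p (x, y)).2 + β)) :
    q.1 (Fin.last d) * α ^ (d - 1) = p.1 (Fin.last d) ∧
    ((q.1 ⟨d - 1, by omega⟩ + d * q.1 (Fin.last d) * β) * α ^ (d - 1) =
      α * p.1 ⟨d - 1, by omega⟩) := by
  classical
  obtain ⟨k, rfl⟩ : ∃ k, d = k + 1 := ⟨d - 1, by omega⟩
  set G : Polynomial Qbar := ∑ i : Fin (k + 1 + 1), Polynomial.C (q.1 i) * Polynomial.X ^ (i : ℕ) with hG
  set F : Polynomial Qbar := ∑ i : Fin (k + 1 + 1), Polynomial.C (p.1 i) * Polynomial.X ^ (i : ℕ) with hF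
  have hev : ∀ (c : Fin (k + 1 + 1) → Qbar) (y : Qbar),
      (∑ i : Fin (k + 1 + 1), Polynomial.C (c i) * Polynomial.X ^ (i : ℕ)).eval y =
        ∑ i, c i * y ^ (i : ℕ) := by
    intro c y
    rw [Polynomial.eval_finsetSum]
    refine Finset.sum_congr rfl fun i _ => ?_
    rw [Polynomial.eval_mul, Polynomial.eval_C, Polynomial.eval_pow, Polynomial.eval_X]
  have hcf : ∀ (c : Fin (k + 1 + 1) → Qbar) (n : ℕ),
      (∑ i : Fin (k + 1 + 1), Polynomial.C (c i) * Polynomial.X ^ (i : ℕ)).coeff n =
        if h : n < k + 1 + 1 then c ⟨n, h⟩ else 0 := by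
    intro c n
    rw [Polynomial.finsetSum_coeff]
    simp only [Polynomial.coeff_C_mul, Polynomial.coeff_X_pow]
    split_ifs with h
    · rw [Finset.sum_eq_single ⟨n, h⟩]
      · simp
      · intro b _ hb
        rw [if_neg, mul_zero]
        intro h2
        exact hb (Fin.ext h2.symm)
      · intro h2
        exact absurd (Finset.mem_univ _) h2
    · refine Finset.sum_eq_zero fun b _ => ?_
      rw [if_neg, mul_zero]
      intro h2
      have := b.2
      omega
  have hpoly : (Polynomial.taylor β G).comp (Polynomial.C α * Polynomial.X) =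
      Polynomial.C α * F + Polynomial.C (β + q.2 * β) := by
    apply Polynomial.funext
    intro y
    rw [Polynomial.taylor_apply, Polynomial.eval_comp, Polynomial.eval_comp]
    simp only [Polynomial.eval_add, Polynomial.eval_mul, Polynomial.eval_C, Polynomial.eval_X]
    rw [hG, hev, hF, hev]
    have h1 := congrArg Prod.snd (h 0 y)
    simp only [hact] at h1
    rw [mul_zero, zero_add, mul_zero, sub_zero] at h1
    linear_combination h1
  have hGdeg : ∀ n, k + 1 < n → G.coeff n = 0 := by
    intro n hn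
    rw [hG, hcf, dif_neg (by omega)]
  have htop : (Polynomial.taylor β G).coeff (k + 1) = q.1 (Fin.last (k + 1)) := by
    rw [Polynomial.taylor_coeff, Polynomial.eval_eq_sum_range' (n := 1)]
    · rw [Finset.sum_range_one, Polynomial.hasseDeriv_coeff, pow_zero, mul_one, zero_add,
        Nat.choose_self, Nat.cast_one, one_mul, hG, hcf, dif_pos (by omega)]
      rfl
    · rw [Nat.lt_one_iff, Polynomial.natDegree_eq_zero_iff_degree_le_zero, Polynomial.degree_le_iff_coeff_zero]
      intro n hn
      have hn' : 0 < n := by exact_mod_cast hn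
      rw [Polynomial.hasseDeriv_coeff, hGdeg _ (by omega), mul_zero]
  have hnext : (Polynomial.taylor β G).coeff k =
      q.1 ⟨k, by omega⟩ + ((k + 1 : ℕ) : Qbar) * q.1 (Fin.last (k + 1)) * β := by
    rw [Polynomial.taylor_coeff, Polynomial.eval_eq_sum_range' (n := 2)]
    · rw [Finset.sum_range_succ, Finset.sum_range_one, Polynomial.hasseDeriv_coeff,
        Polynomial.hasseDeriv_coeff, pow_zero, mul_one, zero_add, Nat.choose_self, Nat.cast_one,
        one_mul, pow_one, hG, hcf, hcf, dif_pos (by omega), dif_pos (by omega)]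
      have e1 : (1 + k).choose k = k + 1 := by
        rw [add_comm 1 k, Nat.choose_succ_self_right]
      have e2 : (⟨1 + k, by omega⟩ : Fin (k + 1 + 1)) = Fin.last (k + 1) := Fin.ext (add_comm 1 k)
      rw [e1, e2]
    · have : (Polynomial.hasseDeriv k G).natDegree ≤ 1 := by
        rw [Polynomial.natDegree_le_iff_coeff_eq_zero]
        intro n hn
        rw [Polynomial.hasseDeriv_coeff, hGdeg _ (by omega), mul_zero]
      omega
  have hk : 1 ≤ k := by omega
  constructor
  · have h1 := congrArg (fun P => P.coeff (k + 1)) hpoly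
    simp only [Polynomial.comp_C_mul_X_coeff, Polynomial.coeff_add, Polynomial.coeff_C_mul] at h1
    rw [htop, Polynomial.coeff_C, if_neg (by omega), add_zero, hF, hcf, dif_pos (by omega)] at h1
    have e2 : (⟨k + 1, by omega⟩ : Fin (k + 1 + 1)) = Fin.last (k + 1) := rfl
    rw [e2] at h1
    rw [Nat.add_sub_cancel]
    apply mul_left_cancel₀ hα
    rw [← h1]
    ring
  · have h1 := congrArg (fun P => P.coeff k) hpoly
    simp only [Polynomial.comp_C_mul_X_coeff, Polynomial.coeff_add, Polynomial.coeff_C_mul] at h1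
    rw [hnext, Polynomial.coeff_C, if_neg (by omega), add_zero, hF, hcf, dif_pos (by omega)] at h1
    exact h1

/-- **Bound for a conjugacy class.** -/
theorem class_bound (hd : 2 ≤ d) (g : HenonMap d) (D B : ℕ) : ∃ M : ℕ, ∀ f : HenonMap d,
    Rel (data f) (data g) → Module.finrank ℚ f.K ≤ D → (f.periodic B).encard ≤ M := by
  classical
  obtain ⟨N, hN⟩ : ∃ N, N = D * B * Module.finrank ℚ g.K * (d - 1) := ⟨_, rfl⟩
  have hfin := fin_per hd g.K g.a g.δ g.lead g.jac N
  refine ⟨hfin.toFinset.card, fun f hfg hD => ?_⟩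
  obtain ⟨α, β, hα, hrel⟩ := hfg
  obtain ⟨hc1, hc2⟩ := coeff_rel hd hα hrel
  set ψ : Qbar × Qbar → Qbar × Qbar := fun P => (α * P.1 + β, α * P.2 + β) with hψ
  have hψi : Function.Injective ψ := by
    intro P Q h
    have h1 := congrArg Prod.fst h
    have h2 := congrArg Prod.snd h
    simp only [hψ] at h1 h2
    exact Prod.ext (mul_left_cancel₀ hα (add_right_cancel h1)) (mul_left_cancel₀ hα (add_right_cancel h2))
  have hsemi : Function.Semiconj ψ f.toFun g.toFun := fun P => (hrel P.1 P.2).symm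
  have hmaps : Set.MapsTo ψ (f.periodic B) (hfin.toFinset : Set (Qbar × Qbar)) := by
    rintro P ⟨⟨n, hn, hper⟩, hdeg⟩
    rw [Set.Finite.coe_toFinset]
    refine ⟨⟨n, hn, ?_⟩, ?_⟩
    · have h1 := hsemi.iterate_right n P
      rw [hper] at h1
      exact h1.symm
    · -- the field
      have halg : Algebra.IsAlgebraic ℚ Qbar := AlgebraicClosure.isAlgebraic ℚ
      let KP := IntermediateField.adjoin f.K ({P.1, P.2} : Set Qbar)
      have hfdP : FiniteDimensional f.K KP := by
        apply IntermediateField.finiteDimensional_adjoin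
        intro x _
        exact (halg.isAlgebraic x).isIntegral.tower_top
      have hfdQ : FiniteDimensional ℚ KP := FiniteDimensional.trans ℚ f.K KP
      let E0 : IntermediateField ℚ Qbar := KP.restrictScalars ℚ
      have hE0fd : FiniteDimensional ℚ E0 := hfdQ
      have hE0r : Module.finrank ℚ E0 ≤ D * B := by
        have h1 : Module.finrank ℚ E0 = Module.finrank ℚ KP := rfl
        rw [h1, ← Module.finrank_mul_finrank ℚ f.K KP]
        exact Nat.mul_le_mul hD hdeg
      let L0 : IntermediateField ℚ Qbar := E0 ⊔ g.K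
      have hL0fd : FiniteDimensional ℚ L0 := IntermediateField.finiteDimensional_sup E0 g.K
      have hL0r : Module.finrank ℚ L0 ≤ D * B * Module.finrank ℚ g.K :=
        (IntermediateField.finrank_sup_le E0 g.K).trans (Nat.mul_le_mul_right _ hE0r)
      have hfL : ∀ x : f.K, (x : Qbar) ∈ L0 := fun x =>
        (le_sup_left : E0 ≤ L0) (KP.algebraMap_mem x)
      have hgL : ∀ x : g.K, (x : Qbar) ∈ L0 := fun x => (le_sup_right : g.K ≤ L0) x.2
      have hPL : P.1 ∈ L0 ∧ P.2 ∈ L0 :=
        ⟨(le_sup_left : E0 ≤ L0) (IntermediateField.subset_adjoin f.K _ (Or.inl rfl)),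
          (le_sup_left : E0 ≤ L0) (IntermediateField.subset_adjoin f.K _ (Or.inr rfl))⟩
      have hb0 : ((g.a (Fin.last d) : g.K) : Qbar) ≠ 0 := by
        intro h
        exact g.lead (by exact_mod_cast h)
      -- the number `α`
      let c : L0 := (⟨_, hfL (f.a (Fin.last d))⟩ : L0) / ⟨_, hgL (g.a (Fin.last d))⟩
      have hαc : α ^ (d - 1) = (c : Qbar) := by
        have h1 : ((g.a (Fin.last d) : g.K) : Qbar) * α ^ (d - 1) = (f.a (Fin.last d) : f.K) := hc1
        show α ^ (d - 1) = ((f.a (Fin.last d) : f.K) : Qbar) / ((g.a (Fin.last d) : g.K) : Qbar)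
        rw [← h1, mul_div_cancel_left₀ _ hb0]
      have hαint : IsIntegral L0 α := (halg.isAlgebraic α).isIntegral.tower_top
      have hαdeg : (minpoly L0 α).natDegree ≤ d - 1 := by
        have h1 : (Polynomial.X ^ (d - 1) - Polynomial.C c : Polynomial L0).natDegree = d - 1 :=
          Polynomial.natDegree_X_pow_sub_C
        have hne : (Polynomial.X ^ (d - 1) - Polynomial.C c : Polynomial L0) ≠ 0 :=
          Polynomial.X_pow_sub_C_ne_zero (by omega) c
        have hroot : Polynomial.aeval α (Polynomial.X ^ (d - 1) - Polynomial.C c : Polynomial L0) = 0 := by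
          rw [map_sub, map_pow, Polynomial.aeval_X, Polynomial.aeval_C, hαc, sub_eq_zero]
          rfl
        rw [← h1]
        exact Polynomial.natDegree_le_of_dvd (minpoly.dvd L0 α hroot) hne
      let E1 := IntermediateField.adjoin L0 ({α} : Set Qbar)
      have hE1fd : FiniteDimensional L0 E1 := IntermediateField.adjoin.finiteDimensional hαint
      have hE1r : Module.finrank L0 E1 ≤ d - 1 := by
        have h1 : Module.finrank L0 E1 = (minpoly L0 α).natDegree :=
          IntermediateField.adjoin.finrank hαint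
        rw [h1]
        exact hαdeg
      have hE1q : FiniteDimensional ℚ E1 := FiniteDimensional.trans ℚ L0 E1
      let E : IntermediateField ℚ Qbar := E1.restrictScalars ℚ
      have hEfd : FiniteDimensional ℚ E := hE1q
      have hEr : Module.finrank ℚ E ≤ N := by
        have h1 : Module.finrank ℚ E = Module.finrank ℚ E1 := rfl
        rw [h1, ← Module.finrank_mul_finrank ℚ L0 E1, hN]
        exact Nat.mul_le_mul hL0r hE1r
      have hLE : ∀ x ∈ L0, x ∈ E := fun x hx => E1.algebraMap_mem ⟨x, hx⟩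
      have hαE : α ∈ E := IntermediateField.mem_adjoin_simple_self L0 α
      have hβE : β ∈ E := by
        have h1 : (((g.a ⟨d - 1, by omega⟩ : g.K) : Qbar) + d * ((g.a (Fin.last d) : g.K) : Qbar) * β) *
            α ^ (d - 1) = α * ((f.a ⟨d - 1, by omega⟩ : f.K) : Qbar) := hc2
        have hd0 : (d : Qbar) ≠ 0 := by
          have : d ≠ 0 := by omega
          exact_mod_cast this
        have hαp : α ^ (d - 1) ≠ 0 := pow_ne_zero _ hα
        have h2 : β = (α * ((f.a ⟨d - 1, by omega⟩ : f.K) : Qbar) / α ^ (d - 1) -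
            ((g.a ⟨d - 1, by omega⟩ : g.K) : Qbar)) / ((d : Qbar) * ((g.a (Fin.last d) : g.K) : Qbar)) := by
          rw [← h1, mul_div_cancel_right₀ _ hαp, add_sub_cancel_left, mul_div_cancel_left₀ _
            (mul_ne_zero hd0 hb0)]
        rw [h2]
        exact div_mem (sub_mem (div_mem (mul_mem hαE (hLE _ (hfL _))) (pow_mem hαE _)) (hLE _ (hgL _)))
          (mul_mem (_root_.natCast_mem _ _) (hLE _ (hgL _)))
      exact ⟨E, hEfd, hEr, add_mem (mul_mem hαE (hLE _ hPL.1)) hβE,
        add_mem (mul_mem hαE (hLE _ hPL.2)) hβE⟩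
  have h := Set.encard_le_encard_of_injOn hmaps hψi.injOn
  rwa [Set.encard_coe_eq_coe_finsetCard] at h

end Pool.Agent.V5helper64.HN
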