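import Pool.Agent.R323.HN.R
import Pool.Agent.H58W.HtNorth

/-!
# A Hénon map has only finitely many periodic points of bounded degree
-/

set_option autoImplicit false

namespace Pool.Agent.V5helper64.HN

open Pool.Agent.R323 Pool.Agent.R323.HN Height IntermediateField Pool.Agent.H504D

/-- integers of bounded degree all of whose conjugates are bounded are finite in number -/
theorem ib_finite (T N : ℕ) :
    {x : Qb | Ib T x ∧ ∃ M : IntermediateField ℚ Qb, FiniteDimensional ℚ M ∧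
      Module.finrank ℚ M ≤ N ∧ x ∈ M}.Finite := by
  refine (Pool.Agent.H58W.finite_integral N T).subset ?_
  rintro x ⟨⟨h1, h2⟩, M, hM, hMN, hxM⟩
  have hmin : minpoly ℚ x = (minpoly ℤ x).map (algebraMap ℤ ℚ) :=
    minpoly.isIntegrallyClosed_eq_field_fractions' ℚ h1
  refine ⟨h1, ?_, fun z hz => ?_⟩
  · have h3 : (minpoly ℤ x).natDegree = (minpoly ℚ x).natDegree := by
      rw [hmin, (minpoly.monic h1).natDegree_map]
    rw [h3]
    have h4 : minpoly ℚ x = minpoly ℚ (⟨x, hxM⟩ : M) :=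
      (minpoly.algebraMap_eq (algebraMap M Qb).injective (⟨x, hxM⟩ : M))
    rw [h4]
    exact (minpoly.natDegree_le _).trans hMN
  · have hne : minpoly ℚ x ≠ 0 := minpoly.ne_zero ((AlgebraicClosure.isAlgebraic ℚ).isAlgebraic x).isIntegral
    have h5 : z ∈ (minpoly ℚ x).rootSet ℂ := by
      rw [Polynomial.mem_rootSet]
      refine ⟨hne, ?_⟩
      have h6 := (Polynomial.mem_roots'.1 hz).2
      rw [hmin, Polynomial.aeval_map_algebraMap, Polynomial.aeval_def]
      rw [Polynomial.IsRoot.def, Polynomial.eval_map] at h6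
      exact h6
    have halg : Algebra.IsAlgebraic ℚ Qb := AlgebraicClosure.isAlgebraic ℚ
    rw [← Algebra.IsAlgebraic.range_eval_eq_rootSet_minpoly (F := ℚ) (K := Qb) ℂ x] at h5
    obtain ⟨σ, hσ⟩ := h5
    rw [← hσ]
    exact h2 σ.toRingHom

/-- the periodic points of a Hénon map with coordinates in fields of bounded degree -/
theorem fin_per {d : ℕ} (hd : 2 ≤ d) (K : IntermediateField ℚ Qb) [NumberField K]
    (a : Fin (d + 1) → K) (δ : K) (ha : a (Fin.last d) ≠ 0) (hδ : δ ≠ 0) (N : ℕ) :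
    {P : Qb × Qb | (∃ n : ℕ, 1 ≤ n ∧ (fun P : Qb × Qb =>
        (P.2, ∑ i, ((a i : K) : Qb) * P.2 ^ (i : ℕ) - (δ : Qb) * P.1))^[n] P = P) ∧
      ∃ M : IntermediateField ℚ Qb, FiniteDimensional ℚ M ∧ Module.finrank ℚ M ≤ N ∧
        P.1 ∈ M ∧ P.2 ∈ M}.Finite := by
  classical
  obtain ⟨X, hX⟩ : ∃ X : ℕ, mulHeight (hvec a δ) ≤ X := exists_nat_ge _
  have hX1 : 1 ≤ X := by
    have h1 : (1 : ℝ) ≤ mulHeight (hvec a δ) := one_le_mulHeight _
    have h2 : (1 : ℝ) ≤ X := h1.trans hX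
    exact_mod_cast h2
  obtain ⟨m, n', hm0, hn0', hmX, hnX', hIa, hIδ, hIn⟩ := coefH d K a δ X hX
  have hX34 : X ^ (d + 3) ≤ X ^ (d + 4) := Nat.pow_le_pow_right hX1 (by omega)
  let F : Polynomial Qb := ∑ i : Fin (d + 1), Polynomial.C ((a i : K) : Qb) *
    Polynomial.X ^ (i : ℕ)
  have hFe : ∀ y, F.eval y = ∑ i, ((a i : K) : Qb) * y ^ (i : ℕ) := by
    intro y
    show (∑ i : Fin (d + 1), Polynomial.C ((a i : K) : Qb) * Polynomial.X ^ (i : ℕ)).eval y = _
    rw [Polynomial.eval_finsetSum]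
    refine Finset.sum_congr rfl fun i _ => ?_
    rw [Polynomial.eval_mul, Polynomial.eval_C, Polynomial.eval_pow, Polynomial.eval_X]
  have haQ : ((a (Fin.last d) : K) : Qb) ≠ 0 := by
    intro h
    exact ha (by exact_mod_cast h)
  have hδQ : (δ : Qb) ≠ 0 := by
    intro h
    exact hδ (by exact_mod_cast h)
  have hhen : (fun P : Qb × Qb => (P.2, ∑ i, ((a i : K) : Qb) * P.2 ^ (i : ℕ) - (δ : Qb) * P.1)) =
      hen F (δ : Qb) := by
    funext P
    unfold hen
    rw [hFe]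
  have hIm : Ib (X ^ (d + 4)) (m : Qb) := (Ib.nat m).mono (hmX.trans hX34)
  -- the finite set
  have hKfd : FiniteDimensional ℚ K := inferInstance
  set W : Set Qb := {x : Qb | Ib ((d + 2) * X ^ (d + 4)) x ∧ ∃ M : IntermediateField ℚ Qb,
    FiniteDimensional ℚ M ∧ Module.finrank ℚ M ≤ N * Module.finrank ℚ K ∧ x ∈ M} with hW
  have hWfin : W.Finite := ib_finite _ _
  set c : Qb := (m : Qb) * ((a (Fin.last d) : K) : Qb) with hc
  have hc0 : c ≠ 0 := mul_ne_zero (by exact_mod_cast hm0) haQ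
  refine ((hWfin.prod hWfin).image (fun w : Qb × Qb => (w.1 / c, w.2 / c))).subset ?_
  rintro P ⟨⟨n, hn, hper⟩, M, hM, hMN, hP1, hP2⟩
  rw [hhen] at hper
  -- the orbit
  let e := henE F (δ : Qb) hδQ
  let z : ℤ → Qb := fun k => ((e ^ k) P).1
  have hz1 : ∀ k : ℤ, z (k + 1) = ((e ^ k) P).2 := by
    intro k
    show ((e ^ (k + 1)) P).1 = _
    rw [add_comm, zpow_add, zpow_one, Equiv.Perm.mul_apply, henE_apply]
    rfl
  have hzr : ∀ k, z (k + 2) = ∑ i, ((a i : K) : Qb) * z (k + 1) ^ (i : ℕ) - (δ : Qb) * z k := by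
    intro k
    have h1 : z (k + 2) = ((e ^ (k + 1)) P).2 := by
      rw [show k + 2 = (k + 1) + 1 by ring]
      exact hz1 (k + 1)
    rw [h1, add_comm k 1, zpow_add, zpow_one, Equiv.Perm.mul_apply, henE_apply]
    show F.eval ((e ^ k) P).2 - (δ : Qb) * ((e ^ k) P).1 = _
    rw [hFe, add_comm 1 k, hz1 k]
  have hzper : ∀ k, z (k + n) = z k := by
    intro k
    show ((e ^ (k + n)) P).1 = ((e ^ k) P).1
    rw [zpow_add, Equiv.Perm.mul_apply]
    have h1 : (e ^ (n : ℤ)) P = P := by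
      rw [zpow_natCast, henE_iter]
      exact hper
    rw [h1]
  have hz0 : z 0 = P.1 := rfl
  have hz1' : z 1 = P.2 := by
    have := hz1 0
    simpa using this
  let E : IntermediateField ℚ Qb := M ⊔ K
  have hEfd : FiniteDimensional ℚ E := IntermediateField.finiteDimensional_sup M K
  have hEnf : NumberField E := ⟨⟩
  have hEr : Module.finrank ℚ E ≤ N * Module.finrank ℚ K :=
    (IntermediateField.finrank_sup_le M K).trans (Nat.mul_le_mul_right _ hMN)
  have hKE : ∀ x : K, (x : Qb) ∈ E := fun x => (le_sup_right : K ≤ M ⊔ K) x.2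
  have hME : ∀ x ∈ M, x ∈ E := fun x hx => (le_sup_left : M ≤ M ⊔ K) hx
  have hzE : ∀ k, z k ∈ E := mem_orb E hδQ (fun i => hKE (a i)) (hKE δ) z hzr
    (by rw [hz0]; exact hME _ hP1) (by rw [hz1']; exact hME _ hP2)
  have hIz : ∀ k, Ib ((d + 2) * X ^ (d + 4)) (c * z k) := by
    intro k
    have h1 := orbIb hd E (X ^ (d + 4)) (fun i => (⟨(m : Qb) * ((a i : K) : Qb),
      mul_mem (_root_.natCast_mem _ _) (hKE (a i))⟩ : E)) (m : E)
      (⟨(m : Qb) * (δ : Qb), mul_mem (_root_.natCast_mem _ _) (hKE δ)⟩ : E)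
      (fun i => hIa i) (by
        have : (((m : E) : E) : Qb) = (m : Qb) := by push_cast; rfl
        rw [this]
        exact hIm) hIδ (fun k => (⟨z k, hzE k⟩ : E)) (fun k => by
        apply Subtype.ext
        push_cast
        rw [hzr, mul_sub, Finset.mul_sum]
        congr 1
        · refine Finset.sum_congr rfl fun i _ => ?_
          ring
        · ring) n hn (fun k => Subtype.ext (hzper k)) k
    exact h1
  have hcE : c ∈ E := mul_mem (_root_.natCast_mem _ _) (hKE _)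
  refine ⟨(c * P.1, c * P.2), ⟨⟨?_, E, hEfd, hEr, mul_mem hcE (hME _ hP1)⟩,
    ⟨?_, E, hEfd, hEr, mul_mem hcE (hME _ hP2)⟩⟩, ?_⟩
  · have := hIz 0
    rwa [hz0] at this
  · have := hIz 1
    rwa [hz1'] at this
  · show (c * P.1 / c, c * P.2 / c) = P
    rw [mul_div_cancel_left₀ _ hc0, mul_div_cancel_left₀ _ hc0]

end Pool.Agent.V5helper64.HN
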